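import Pool.Agent.W662.KKS.Fin2
import Pool.Agent.W662.KKS.Kk
import Pool.Agent.W662.KKS.Defs3

set_option autoImplicit false

open scoped InnerProductSpace
open Pool.Agent.Helper278 Pool.Agent.W663.KK Pool.Agent.W662.KKS

namespace Pool.Agent.Results.MP_890ef7_an.PropertyTStability

/-- **Property (T) passes between Kadison–Kastler close II₁ factors, with a universal constant.**
There is `ε > 0` such that for all II₁ factors `M, N` on the same Hilbert space at
Kadison–Kastler distance less than `ε`, if `M` has property (T) then so has `N`. -/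
theorem result :
    ∃ ε : ℝ, 0 < ε ∧ ∀ (H : Type) [NormedAddCommGroup H] [InnerProductSpace ℂ H]
      [CompleteSpace H] (M N : VonNeumannAlgebra H) (τ : Elt M → ℂ) (σ : Elt N → ℂ),
      IsIIOneFactor M τ → IsIIOneFactor N σ → kkDist M N < ε →
        HasT M → HasT N := by
  obtain ⟨δ, hδ, h⟩ := gmain
  refine ⟨δ, hδ, ?_⟩
  intro H _ _ _ M N τ σ hM hN hd hT
  have hd' : kkDist N M < δ := by rw [← kk_comm]; exact hd
  obtain ⟨e⟩ := h H M N τ σ hM hN (near_of_kk hd) (near_of_kk hd')
  exact HasPropertyT.iso e hT

end Pool.Agent.Results.MP_890ef7_an.PropertyTStability
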